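import Mathlib

set_option autoImplicit false

/-!
# Countable regular tilings of infinite-dimensional dual spaces do not exist

A convex function on the dual of an infinite-dimensional normed space which is the (attained) maximum of
countably many weak-star continuous affine functions has an unbounded sublevel set.
-/

open Bornology Set Topology

namespace Pool.Agent.U594.VOR

section dual

variable {Y : Type*} [NormedAddCommGroup Y] [NormedSpace ℝ Y]

/-- a finite set in an infinite-dimensional normed space is annihilated by a nonzero functional -/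
lemma exists_zero_on_finite (hY : ¬ FiniteDimensional ℝ Y) (s : Finset Y) :
    ∃ g : StrongDual ℝ Y, g ≠ 0 ∧ ∀ y ∈ s, g y = 0 := by
  classical
  let p := Submodule.span ℝ (s : Set Y)
  have hfin : FiniteDimensional ℝ p := FiniteDimensional.span_finset ℝ s
  have hcl : IsClosed (p : Set Y) := p.closed_of_finiteDimensional
  have hne : ∃ x, x ∉ p := by
    by_contra h
    push Not at h
    apply hY
    have htop : p = ⊤ := Submodule.eq_top_iff'.2 h
    rw [htop] at hfin
    exact Module.Finite.of_surjective (Submodule.subtype (⊤ : Submodule ℝ Y))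
      (fun y => ⟨⟨y, trivial⟩, rfl⟩)
  obtain ⟨x, hx⟩ := hne
  obtain ⟨f, u, h1, h2⟩ := geometric_hahn_banach_closed_point p.convex hcl hx
  have h0 : ∀ y ∈ p, f y = 0 := by
    intro y hy
    by_contra hfy
    have h3 := h1 ((((u + 1) / f y)) • y) (p.smul_mem _ hy)
    rw [map_smul, smul_eq_mul, div_mul_cancel₀ _ hfy] at h3
    linarith
  refine ⟨f, ?_, fun y hy => h0 y (Submodule.subset_span hy)⟩
  rintro rfl
  have h3 := h1 0 p.zero_mem
  simp only [zero_apply] at h3 h2
  linarith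

/-- The maximum of countably many weak-star continuous affine functions on the dual of an
infinite-dimensional normed space cannot be attained everywhere and have bounded sublevel sets. -/
theorem dual_main (hY : ¬ FiniteDimensional ℝ Y) {ι : Type*} [Countable ι] (v : ι → Y) (c : ι → ℝ)
    (hmax : ∀ φ : StrongDual ℝ Y, ∃ i, ∀ j, φ (v j) + c j ≤ φ (v i) + c i)
    (hco : ∀ r : ℝ, IsBounded {φ : StrongDual ℝ Y | ∀ j, φ (v j) + c j ≤ r}) : False := by
  classical
  obtain ⟨i0, hi0⟩ := hmax 0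
  simp only [zero_apply, zero_add] at hi0
  set r : ℝ := c i0 + 1 with hr
  let K : Set (WeakDual ℝ Y) := {φ | ∀ j, φ (v j) + c j ≤ r}
  have hKb : IsBounded K := hco r
  have hKc : IsClosed K := by
    have h1 : K = ⋂ j, {φ : WeakDual ℝ Y | φ (v j) + c j ≤ r} := by
      ext φ
      simp [K]
    rw [h1]
    exact isClosed_iInter fun j =>
      isClosed_le ((WeakDual.eval_continuous (v j)).add continuous_const) continuous_const
  have hK : IsCompact K := WeakDual.isCompact_of_bounded_of_closed hKb hKc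
  have hKs : CompactSpace K := isCompact_iff_compactSpace.1 hK
  have h0K : (0 : WeakDual ℝ Y) ∈ K := by
    intro j
    have h1 : (0 : WeakDual ℝ Y) (v j) = 0 := rfl
    rw [h1, zero_add]
    have := hi0 j
    linarith
  have hKn : Nonempty K := ⟨⟨0, h0K⟩⟩
  let C : ι → Set K := fun i => {x | ∀ j, (x : WeakDual ℝ Y) (v j) + c j ≤ (x : WeakDual ℝ Y) (v i) + c i}
  have hC : ∀ i, IsClosed (C i) := by
    intro i
    have h1 : C i = ⋂ j, {x : K | (x : WeakDual ℝ Y) (v j) + c j ≤ (x : WeakDual ℝ Y) (v i) + c i} := by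
      ext φ
      simp [C]
    rw [h1]
    refine isClosed_iInter fun j => isClosed_le ?_ ?_
    · exact ((WeakDual.eval_continuous (v j)).comp continuous_subtype_val).add continuous_const
    · exact ((WeakDual.eval_continuous (v i)).comp continuous_subtype_val).add continuous_const
  have hU : ⋃ i, C i = univ := by
    refine eq_univ_of_forall fun x => mem_iUnion.2 ?_
    obtain ⟨i, hi⟩ := hmax (x : WeakDual ℝ Y)
    exact ⟨i, hi⟩
  obtain ⟨i, x, hx⟩ := nonempty_interior_of_iUnion_of_closed hC hU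
  -- a weak-star open set `O` with `K ∩ O ⊆ C i`
  obtain ⟨W, hWC, hWo, hxW⟩ := mem_interior.1 hx
  obtain ⟨O, hO, rfl⟩ := isOpen_induced_iff.1 hWo
  have hOC : ∀ φ : WeakDual ℝ Y, φ ∈ K → φ ∈ O → ∀ j, φ (v j) + c j ≤ φ (v i) + c i :=
    fun φ h1 h2 => hWC (a := ⟨φ, h1⟩) h2
  -- a point `z` of `K ∩ O` below the level `r`
  obtain ⟨τ, hτ0, hτ1, hzO⟩ : ∃ τ : ℝ, 0 < τ ∧ τ < 1 ∧ ((1 - τ) • (x : WeakDual ℝ Y)) ∈ O := by
    have hcont : Continuous (fun τ : ℝ => (1 - τ) • (x : WeakDual ℝ Y)) :=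
      (continuous_const.sub continuous_id).smul continuous_const
    have h1 : (fun τ : ℝ => (1 - τ) • (x : WeakDual ℝ Y)) ⁻¹' O ∈ 𝓝 (0 : ℝ) := by
      refine (hO.preimage hcont).mem_nhds ?_
      show (1 - (0 : ℝ)) • (x : WeakDual ℝ Y) ∈ O
      rw [sub_zero, one_smul]
      exact hxW
    obtain ⟨ε, hε, hball⟩ := Metric.mem_nhds_iff.1 h1
    refine ⟨min (ε / 2) (1 / 2), by positivity, ?_, hball ?_⟩
    · exact (min_le_right _ _).trans_lt (by norm_num)
    · rw [Metric.mem_ball, Real.dist_eq, sub_zero, abs_of_pos (by positivity)]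
      exact (min_le_left _ _).trans_lt (by linarith)
  set z : WeakDual ℝ Y := (1 - τ) • (x : WeakDual ℝ Y) with hz
  have hzlow : ∀ j, z (v j) + c j ≤ r - τ := by
    intro j
    have h1 : z (v j) = (1 - τ) * (x : WeakDual ℝ Y) (v j) := rfl
    have h2 : (x : WeakDual ℝ Y) (v j) + c j ≤ r := x.2 j
    have h3 := hi0 j
    rw [h1]
    nlinarith [mul_le_mul_of_nonneg_left h2 (by linarith : (0 : ℝ) ≤ 1 - τ)]
  have hzK : z ∈ K := fun j => (hzlow j).trans (by linarith)
  have hzi := hOC z hzK hzO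
  set s0 : ℝ := z (v i) + c i with hs0
  have hs0r : s0 ≤ r - τ := hzlow i
  -- finitely many coordinates
  obtain ⟨s, hs, hsO⟩ := isOpen_induced_iff.1 hO
  have hzs : (fun y => z y) ∈ s := by
    have : z ∈ (fun (φ : WeakDual ℝ Y) (y : Y) => φ y) ⁻¹' s := by
      have h1 := hzO
      rw [← hsO] at h1
      exact h1
    exact this
  obtain ⟨I, u, hu1, hu2⟩ := isOpen_pi_iff.1 hs _ hzs
  have hIO : ∀ ψ : WeakDual ℝ Y, (∀ y ∈ I, ψ y = z y) → ψ ∈ O := by
    intro ψ hψ
    have h1 : (fun y => ψ y) ∈ s := by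
      apply hu2
      intro y hy
      have h2 : z y ∈ u y := (hu1 y hy).2
      show ψ y ∈ u y
      rw [hψ y hy]
      exact h2
    rw [← hsO]
    exact h1
  obtain ⟨g, hg0, hg⟩ := exists_zero_on_finite hY (insert (v i) I)
  -- the ray
  let zs : StrongDual ℝ Y := WeakDual.toStrongDual z
  let ψ : ℝ → StrongDual ℝ Y := fun t => zs + t • g
  have hψv : ∀ (t : ℝ) (y : Y), ψ t y = z y + t * g y := fun t y => rfl
  have hψO : ∀ t, StrongDual.toWeakDual (ψ t) ∈ O := by
    intro t
    apply hIO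
    intro y hy
    have h1 : StrongDual.toWeakDual (ψ t) y = z y + t * g y := rfl
    rw [h1, hg y (Finset.mem_insert_of_mem hy)]
    ring
  have hψi : ∀ t, ψ t (v i) + c i = s0 := by
    intro t
    rw [hψv, hg (v i) (Finset.mem_insert_self _ _)]
    ring
  let T : Set ℝ := {t | 0 ≤ t ∧ ∀ j, ψ t (v j) + c j ≤ r}
  have hTlow : ∀ t ∈ T, ∀ j, ψ t (v j) + c j ≤ s0 := by
    intro t ht j
    have h1 := hOC (StrongDual.toWeakDual (ψ t)) ht.2 (hψO t) j
    have h2 := hψi t
    exact h1.trans (le_of_eq h2)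
  have hT0 : (0 : ℝ) ∈ T := by
    refine ⟨le_rfl, fun j => ?_⟩
    rw [hψv, zero_mul, add_zero]
    exact hzK j
  have hTb : BddAbove T := by
    obtain ⟨R, hR⟩ := (hco r).exists_norm_le
    have hgpos : 0 < ‖g‖ := norm_pos_iff.2 hg0
    refine ⟨(R + ‖zs‖) / ‖g‖, fun t ht => ?_⟩
    have h1 : ‖ψ t‖ ≤ R := hR _ ht.2
    have h2 : ‖t • g‖ ≤ ‖ψ t‖ + ‖zs‖ := by
      have h3 : t • g = ψ t - zs := by
        simp [ψ]
      rw [h3]
      exact norm_sub_le _ _
    rw [norm_smul, Real.norm_eq_abs, abs_of_nonneg ht.1] at h2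
    rw [le_div_iff₀ hgpos]
    linarith
  have hTc : IsClosed T := by
    have h1 : T = Ici 0 ∩ ⋂ j, {t : ℝ | z (v j) + t * g (v j) + c j ≤ r} := by
      ext t
      simp [T, hψv]
    rw [h1]
    refine isClosed_Ici.inter (isClosed_iInter fun j => isClosed_le ?_ continuous_const)
    fun_prop
  have hS : sSup T ∈ T := hTc.csSup_mem ⟨0, hT0⟩ hTb
  set S := sSup T with hSdef
  obtain ⟨k, hk⟩ := hmax (ψ (S + 1))
  set M : ℝ := ψ (S + 1) (v k) + c k with hM
  have hden : 0 < |M - s0| + 1 := by positivity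
  set l : ℝ := min 1 (τ / (|M - s0| + 1)) with hl
  have hl0 : 0 < l := lt_min one_pos (div_pos hτ0 hden)
  have hl1 : l ≤ 1 := min_le_left _ _
  have hl2 : l * |M - s0| ≤ τ := by
    have h1 : l ≤ τ / (|M - s0| + 1) := min_le_right _ _
    have h2 : l * (|M - s0| + 1) ≤ τ := by
      rwa [le_div_iff₀ hden] at h1
    nlinarith [abs_nonneg (M - s0)]
  have hmem : S + l ∈ T := by
    refine ⟨by have := hS.1; linarith, fun j => ?_⟩
    have h1 : ψ S (v j) + c j ≤ s0 := hTlow S hS j
    have h2 : ψ (S + 1) (v j) + c j ≤ M := hk j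
    have h3 : ψ (S + l) (v j) + c j =
        (1 - l) * (ψ S (v j) + c j) + l * (ψ (S + 1) (v j) + c j) := by
      rw [hψv, hψv, hψv]
      ring
    rw [h3]
    have h4 : (1 - l) * (ψ S (v j) + c j) ≤ (1 - l) * s0 :=
      mul_le_mul_of_nonneg_left h1 (by linarith)
    have h5 : l * (ψ (S + 1) (v j) + c j) ≤ l * M := mul_le_mul_of_nonneg_left h2 hl0.le
    have h6 : l * (M - s0) ≤ l * |M - s0| := mul_le_mul_of_nonneg_left (le_abs_self _) hl0.le
    nlinarith
  have := le_csSup hTb hmem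
  linarith

end dual

section hilbert

variable {H : Type*} [NormedAddCommGroup H] [InnerProductSpace ℝ H] [CompleteSpace H]

/-- Power diagrams: in an infinite-dimensional Hilbert space the power distance to a countable family of
sites with weights cannot be attained everywhere and be bounded above. -/
theorem power_diagram (hH : ¬ FiniteDimensional ℝ H) {ι : Type*} [Countable ι] (a : ι → H)
    (w : ι → ℝ) (hmin : ∀ x, ∃ i, ∀ j, ‖x - a i‖ ^ 2 - w i ≤ ‖x - a j‖ ^ 2 - w j)
    (R : ℝ) (hR : ∀ x, ∃ i, ‖x - a i‖ ^ 2 - w i ≤ R) : False := by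
  have hval : ∀ (φ : StrongDual ℝ H) (i : ι), φ ((2 : ℝ) • a i) + (w i - ‖a i‖ ^ 2) =
      ‖(InnerProductSpace.toDual ℝ H).symm φ‖ ^ 2 -
        (‖(InnerProductSpace.toDual ℝ H).symm φ - a i‖ ^ 2 - w i) := by
    intro φ i
    have h1 : φ (a i) = inner ℝ ((InnerProductSpace.toDual ℝ H).symm φ) (a i) := by
      rw [InnerProductSpace.toDual_symm_apply]
    rw [map_smul, smul_eq_mul, h1, norm_sub_sq_real]
    ring
  refine dual_main hH (fun i => (2 : ℝ) • a i) (fun i => w i - ‖a i‖ ^ 2) ?_ ?_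
  · intro φ
    obtain ⟨i, hi⟩ := hmin ((InnerProductSpace.toDual ℝ H).symm φ)
    refine ⟨i, fun j => ?_⟩
    rw [hval, hval]
    have := hi j
    linarith
  · intro r
    refine (Metric.isBounded_closedBall (x := (0 : StrongDual ℝ H)) (r := |r + R| + 1)).subset ?_
    intro φ hφ
    rw [mem_closedBall_zero_iff]
    obtain ⟨i, hi⟩ := hR ((InnerProductSpace.toDual ℝ H).symm φ)
    have h1 : φ ((2 : ℝ) • a i) + (w i - ‖a i‖ ^ 2) ≤ r := hφ i
    rw [hval] at h1
    have h2 : ‖(InnerProductSpace.toDual ℝ H).symm φ‖ = ‖φ‖ := LinearIsometryEquiv.norm_map _ _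
    rw [h2] at h1
    have h3 : ‖φ‖ ^ 2 ≤ |r + R| := by
      have := le_abs_self (r + R)
      linarith
    nlinarith [norm_nonneg φ, abs_nonneg (r + R), sq_nonneg (‖φ‖ - 1)]

end hilbert

end Pool.Agent.U594.VOR
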